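import Mathlib
set_option autoImplicit false
set_option linter.all false

namespace HSDec

open Finset

/-- `G` decomposes the complete graph on 50 vertices into seven graphs which are 7-regular, triangle-free
and such that non-adjacent vertices have exactly one common neighbour; `σ` permutes the copies via `π`. -/
structure Good (G : Fin 7 → SimpleGraph (Fin 50)) (σ : Equiv.Perm (Fin 50)) (π : Fin 7 → Fin 7) : Prop where
  reg : ∀ i x, Nat.card {y // (G i).Adj x y} = 7
  tri : ∀ i x y z, (G i).Adj x y → (G i).Adj y z → ¬ (G i).Adj x z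
  ex : ∀ i x y, x ≠ y → ¬ (G i).Adj x y → ∃ z, (G i).Adj x z ∧ (G i).Adj z y
  un : ∀ i x y z w, x ≠ y → (G i).Adj x z → (G i).Adj z y → (G i).Adj x w → (G i).Adj w y → z = w
  cov : ∀ x y, x ≠ y → ∃ i, (G i).Adj x y
  dis : ∀ i j x y, (G i).Adj x y → (G j).Adj x y → i = j
  map : ∀ i x y, (G i).Adj x y ↔ (G (π i)).Adj (σ x) (σ y)

/-- fixed vertices -/
def F (σ : Equiv.Perm (Fin 50)) : Finset (Fin 50) := univ.filter (fun x => σ x = x)
/-- fixed copies -/
def C (π : Fin 7 → Fin 7) : Finset (Fin 7) := univ.filter (fun i => π i = i)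
open Classical in
/-- number of fixed neighbours of `y` in copy `i` -/
noncomputable def d (G : Fin 7 → SimpleGraph (Fin 50)) (σ : Equiv.Perm (Fin 50)) (i : Fin 7) (y : Fin 50) : ℕ :=
  ((F σ).filter (fun z => (G i).Adj y z)).card
open Classical in
/-- number of vertices adjacent to their image in copy `i` -/
noncomputable def al (G : Fin 7 → SimpleGraph (Fin 50)) (σ : Equiv.Perm (Fin 50)) (i : Fin 7) : ℕ :=
  (univ.filter (fun x => (G i).Adj x (σ x))).card

namespace J_mod_fix

lemma mod_fix_pow {α : Type} (σ : Equiv.Perm α) (S : Finset α) (hS : ∀ x ∈ S, σ x ∈ S)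
    (f : Function.End S) (hf : ∀ x : S, ((f x : S) : α) = σ x) (k : ℕ) (x : S) :
    (((f ^ k) x : S) : α) = (σ ^ k) x := by
  induction k generalizing x with
  | zero => rfl
  | succ k ih =>
    rw [pow_succ, pow_succ]
    show (((f ^ k) (f x) : S) : α) = (σ ^ k) (σ x)
    rw [ih, hf]

lemma mod_fix {α : Type} [Fintype α] [DecidableEq α] (σ : Equiv.Perm α) (p : ℕ) [Fact p.Prime] (hσ : σ ^ p = 1)
    (S : Finset α) (hS : ∀ x ∈ S, σ x ∈ S) : S.card ≡ (S.filter (fun x => σ x = x)).card [MOD p] := by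
  let f : Function.End S := fun x => ⟨σ x, hS x x.2⟩
  have hf : f ^ p ^ 1 = 1 := by
    funext x
    apply Subtype.ext
    rw [mod_fix_pow σ S hS f (fun x => rfl), pow_one, hσ]
    rfl
  have h := Equiv.Perm.card_fixedPoints_modEq hf
  rw [Fintype.card_coe] at h
  refine h.trans ?_
  have h2 : Fintype.card (Function.fixedPoints f) = (S.filter (fun x => σ x = x)).card := by
    rw [← Fintype.card_coe]
    refine Fintype.card_congr ⟨fun x => ⟨(x : S), ?_⟩, fun x => ⟨⟨(x : α), ?_⟩, ?_⟩, ?_, ?_⟩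
    · have hx : f x.1 = x.1 := x.2
      have hx' : σ (x.1 : α) = x.1 := congrArg Subtype.val hx
      exact Finset.mem_filter.mpr ⟨x.1.2, hx'⟩
    · exact (Finset.mem_filter.mp x.2).1
    · exact Subtype.ext (Finset.mem_filter.mp x.2).2
    · intro x
      rfl
    · intro x
      rfl
  exact congrArg (· % p) h2


end J_mod_fix

alias mod_fix := J_mod_fix.mod_fix

namespace J_sum_copies

lemma sum_copies (G : Fin 7 → SimpleGraph (Fin 50)) (σ : Equiv.Perm (Fin 50)) (π : Fin 7 → Fin 7) (h : Good G σ π)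
    (y : Fin 50) (hy : σ y = y) : ∑ i ∈ C π, d G σ i y = (F σ).card - 1 := by
  classical
  have hyF : y ∈ F σ := by
    unfold F
    exact mem_filter.2 ⟨mem_univ _, hy⟩
  have h1 : (C π).biUnion (fun i => (F σ).filter (fun z => (G i).Adj y z)) = (F σ).erase y := by
    ext z
    rw [mem_biUnion, mem_erase]
    constructor
    · rintro ⟨i, _, hz⟩
      obtain ⟨hzF, hadj⟩ := mem_filter.1 hz
      exact ⟨hadj.ne', hzF⟩
    · rintro ⟨hzy, hzF⟩
      obtain ⟨i, hi⟩ := h.cov y z (Ne.symm hzy)
      have hz : σ z = z := (mem_filter.1 hzF).2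
      have h2 := (h.map i y z).1 hi
      rw [hy, hz] at h2
      have h3 := h.dis _ _ _ _ h2 hi
      exact ⟨i, mem_filter.2 ⟨mem_univ _, h3⟩, mem_filter.2 ⟨hzF, hi⟩⟩
  have h2 := card_biUnion (s := C π) (t := fun i => (F σ).filter (fun z => (G i).Adj y z)) (by
    intro i _ j _ hij
    rw [Function.onFun, Finset.disjoint_left]
    intro z hz hz'
    exact hij (h.dis _ _ _ _ (mem_filter.1 hz).2 (mem_filter.1 hz').2))
  rw [h1, card_erase_of_mem hyF] at h2
  unfold d
  rw [h2]


end J_sum_copies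

alias sum_copies := J_sum_copies.sum_copies

namespace J_sum_sq

open Classical in
lemma sum_sq_N (G : Fin 7 → SimpleGraph (Fin 50)) (σ : Equiv.Perm (Fin 50)) (π : Fin 7 → Fin 7) (h : Good G σ π)
    (i : Fin 7) (hi : π i = i) (a b : Fin 50) (ha : a ∈ F σ) (hb : b ∈ F σ) (hab : a ≠ b) :
    ((F σ).filter (fun y => (G i).Adj y a ∧ (G i).Adj y b)).card = if (G i).Adj a b then 0 else 1 := by
  have ha' : σ a = a := (Finset.mem_filter.mp ha).2
  have hb' : σ b = b := (Finset.mem_filter.mp hb).2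
  split_ifs with hadj
  · rw [Finset.card_eq_zero, Finset.filter_eq_empty_iff]
    rintro y hy ⟨h1, h2⟩
    exact h.tri i a y b h1.symm h2 hadj
  · obtain ⟨z, hz1, hz2⟩ := h.ex i a b hab hadj
    have h1 : (G i).Adj a (σ z) := by
      have := (h.map i a z).mp hz1
      rwa [hi, ha'] at this
    have h2 : (G i).Adj (σ z) b := by
      have := (h.map i z b).mp hz2
      rwa [hi, hb'] at this
    have h3 : z = σ z := h.un i a b z (σ z) hab hz1 hz2 h1 h2
    rw [Finset.card_eq_one]
    refine ⟨z, ?_⟩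
    ext y
    rw [Finset.mem_filter, Finset.mem_singleton]
    constructor
    · rintro ⟨_, h4, h5⟩
      exact h.un i a b y z hab h4.symm h5 hz1 hz2
    · rintro rfl
      exact ⟨Finset.mem_filter.mpr ⟨Finset.mem_univ _, h3.symm⟩, hz1.symm, hz2⟩

open Classical in
lemma sum_sq_row (G : Fin 7 → SimpleGraph (Fin 50)) (σ : Equiv.Perm (Fin 50)) (π : Fin 7 → Fin 7) (h : Good G σ π)
    (i : Fin 7) (hi : π i = i) (a : Fin 50) (ha : a ∈ F σ) :
    ∑ b ∈ F σ, ((F σ).filter (fun y => (G i).Adj y a ∧ (G i).Adj y b)).card = (F σ).card - 1 := by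
  rw [← Finset.add_sum_erase _ _ ha]
  have h1 : ((F σ).filter (fun y => (G i).Adj y a ∧ (G i).Adj y a)).card
      = (((F σ).erase a).filter (fun b => (G i).Adj a b)).card := by
    congr 1
    ext y
    rw [Finset.mem_filter, Finset.mem_filter, Finset.mem_erase]
    constructor
    · rintro ⟨hy, h1, _⟩
      exact ⟨⟨h1.ne, hy⟩, h1.symm⟩
    · rintro ⟨⟨_, hy⟩, h1⟩
      exact ⟨hy, h1.symm, h1.symm⟩
  have h2 : ∑ b ∈ (F σ).erase a, ((F σ).filter (fun y => (G i).Adj y a ∧ (G i).Adj y b)).card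
      = (((F σ).erase a).filter (fun b => ¬ (G i).Adj a b)).card := by
    rw [Finset.card_filter]
    refine Finset.sum_congr rfl fun b hb => ?_
    rw [sum_sq_N G σ π h i hi a b ha (Finset.mem_of_mem_erase hb) (Finset.ne_of_mem_erase hb).symm]
    by_cases hadj : (G i).Adj a b
    · simp [hadj]
    · simp [hadj]
  rw [h1, h2, Finset.card_filter_add_card_filter_not, Finset.card_erase_of_mem ha]

lemma sum_sq (G : Fin 7 → SimpleGraph (Fin 50)) (σ : Equiv.Perm (Fin 50)) (π : Fin 7 → Fin 7) (h : Good G σ π)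
    (i : Fin 7) (hi : π i = i) : ∑ y ∈ F σ, (d G σ i y) ^ 2 = (F σ).card * ((F σ).card - 1) := by
  classical
  have h1 : ∀ y ∈ F σ, (d G σ i y)^2 = ∑ a ∈ F σ, ∑ b ∈ F σ, if (G i).Adj y a ∧ (G i).Adj y b then 1 else 0 := by
    intro y _
    unfold d
    rw [sq, Finset.card_filter, Finset.sum_mul_sum]
    refine Finset.sum_congr rfl fun a _ => Finset.sum_congr rfl fun b _ => ?_
    by_cases ha : (G i).Adj y a <;> by_cases hb : (G i).Adj y b <;> simp [ha, hb]
  rw [Finset.sum_congr rfl h1, Finset.sum_comm]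
  have h2 : ∀ a ∈ F σ, ∑ y ∈ F σ, ∑ b ∈ F σ, (if (G i).Adj y a ∧ (G i).Adj y b then 1 else 0) = (F σ).card - 1 := by
    intro a ha
    rw [Finset.sum_comm, ← sum_sq_row G σ π h i hi a ha]
    refine Finset.sum_congr rfl fun b _ => ?_
    rw [Finset.card_filter]
  rw [Finset.sum_congr rfl h2, Finset.sum_const, smul_eq_mul]


end J_sum_sq

alias sum_sq := J_sum_sq.sum_sq

namespace J_d_le

lemma d_le (G : Fin 7 → SimpleGraph (Fin 50)) (σ : Equiv.Perm (Fin 50)) (π : Fin 7 → Fin 7) (h : Good G σ π)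
    (i : Fin 7) (y : Fin 50) : d G σ i y ≤ 7 := by
  classical
  have h1 : (univ.filter (fun z => (G i).Adj y z)).card = 7 := by
    have h2 := h.reg i y
    rw [Nat.card_eq_fintype_card, Fintype.card_subtype] at h2
    exact h2
  unfold d
  rw [← h1]
  apply Finset.card_le_card
  intro z hz
  rw [Finset.mem_filter] at hz ⊢
  exact ⟨Finset.mem_univ _, hz.2⟩


end J_d_le

alias d_le := J_d_le.d_le

namespace J_d_mod
lemma d_mod (G : Fin 7 → SimpleGraph (Fin 50)) (σ : Equiv.Perm (Fin 50)) (π : Fin 7 → Fin 7) (h : Good G σ π)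
    (p : ℕ) [Fact p.Prime] (hσ : σ ^ p = 1) (i : Fin 7) (hi : π i = i) (y : Fin 50) (hy : σ y = y) :
    d G σ i y ≡ 7 [MOD p] := by
  classical
  have h1 := mod_fix σ p hσ (univ.filter (fun x => (G i).Adj y x)) (by
    intro x hx
    rw [mem_filter] at hx ⊢
    refine ⟨mem_univ _, ?_⟩
    have := (h.map i y x).1 hx.2
    rwa [hi, hy] at this)
  have h2 : (univ.filter (fun x => (G i).Adj y x)).card = 7 := by
    rw [← h.reg i y, Nat.card_eq_fintype_card, Fintype.card_subtype]
  have h3 : d G σ i y = ((univ.filter (fun x => (G i).Adj y x)).filter (fun x => σ x = x)).card := by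
    rw [d, F, filter_filter, filter_filter]
    congr 1
    ext x
    simp [and_comm]
  rw [h3, ← h2]
  exact h1.symm



end J_d_mod

alias d_mod := J_d_mod.d_mod

namespace J_F_mod

lemma F_mod (σ : Equiv.Perm (Fin 50)) (p : ℕ) [Fact p.Prime] (hσ : σ ^ p = 1) :
    (F σ).card ≡ 50 [MOD p] := by
  have h := mod_fix σ p hσ (univ : Finset (Fin 50)) (fun x _ => mem_univ _)
  have h50 : (univ : Finset (Fin 50)).card = 50 := by simp
  rw [h50] at h
  exact h.symm


end J_F_mod

alias F_mod := J_F_mod.F_mod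

namespace J_pi_inj

lemma pi_inj (G : Fin 7 → SimpleGraph (Fin 50)) (σ : Equiv.Perm (Fin 50)) (π : Fin 7 → Fin 7) (h : Good G σ π) : Function.Injective π := by
  intro i j hij
  have h1 := h.reg i 0
  have h2 : Nonempty {y // (G i).Adj 0 y} := by
    by_contra hc
    rw [not_nonempty_iff] at hc
    rw [Nat.card_of_isEmpty] at h1
    exact absurd h1 (by norm_num)
  obtain ⟨y, hy⟩ := h2
  have h3 := (h.map i 0 y).1 hy
  rw [hij] at h3
  exact h.dis i j 0 y hy ((h.map j 0 y).2 h3)


end J_pi_inj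

alias pi_inj := J_pi_inj.pi_inj

namespace J_C_mod

lemma C_mod (G : Fin 7 → SimpleGraph (Fin 50)) (σ : Equiv.Perm (Fin 50)) (π : Fin 7 → Fin 7) (h : Good G σ π)
    (p : ℕ) [Fact p.Prime] (hσ : σ ^ p = 1) : (C π).card ≡ 7 [MOD p] := by
  have hbij : Function.Bijective π := Finite.injective_iff_bijective.1 (pi_inj G σ π h)
  set τ : Equiv.Perm (Fin 7) := Equiv.ofBijective π hbij with hτdef
  have hτ : ∀ i, τ i = π i := fun i => rfl
  have hit : ∀ n : ℕ, ∀ i x y, (G i).Adj x y ↔ (G ((τ ^ n) i)).Adj ((σ ^ n) x) ((σ ^ n) y) := by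
    intro n
    induction n with
    | zero => intro i x y; simp
    | succ n ih =>
      intro i x y
      rw [ih i x y, h.map ((τ ^ n) i) ((σ ^ n) x) ((σ ^ n) y)]
      rw [pow_succ' τ n, pow_succ' σ n, Equiv.Perm.mul_apply, Equiv.Perm.mul_apply,
        Equiv.Perm.mul_apply, hτ]
  have hτp : τ ^ p = 1 := by
    ext i
    have h1 := h.reg i 0
    have h2 : Nonempty {y // (G i).Adj 0 y} := by
      by_contra hcon
      rw [not_nonempty_iff] at hcon
      rw [Nat.card_of_isEmpty] at h1
      omega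
    obtain ⟨y, hy⟩ := h2
    have h3 := (hit p i 0 y).1 hy
    rw [hσ] at h3
    have h4 := h.dis i ((τ ^ p) i) 0 y hy h3
    rw [← h4]
    rfl
  have hm := mod_fix τ p hτp univ (fun _ _ => mem_univ _)
  have hc : (univ : Finset (Fin 7)).card = 7 := by simp
  rw [hc] at hm
  have hC : (univ.filter (fun x => τ x = x)) = C π := rfl
  rw [hC] at hm
  exact hm.symm


end J_C_mod

alias C_mod := J_C_mod.C_mod

namespace J_F_ne

lemma F_ne (σ : Equiv.Perm (Fin 50)) (hσ : σ ≠ 1) : (F σ).card < 50 := by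
  by_contra hcon
  apply hσ
  have h1 : (F σ).card = (univ : Finset (Fin 50)).card := by
    have h2 : (F σ).card ≤ (univ : Finset (Fin 50)).card := Finset.card_le_card (Finset.subset_univ _)
    rw [Finset.card_univ, Fintype.card_fin] at h2 ⊢
    omega
  have h3 : F σ = univ := Finset.eq_of_subset_of_card_le (Finset.subset_univ _) h1.ge
  ext x
  have h4 : x ∈ F σ := by
    rw [h3]
    exact Finset.mem_univ x
  unfold F at h4
  rw [Finset.mem_filter] at h4
  rw [h4.2]
  rfl


end J_F_ne

alias F_ne := J_F_ne.F_ne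

namespace J_bound_c

lemma bound_c (G : Fin 7 → SimpleGraph (Fin 50)) (σ : Equiv.Perm (Fin 50)) (π : Fin 7 → Fin 7) (h : Good G σ π)
    (hF : 2 ≤ (F σ).card) : (F σ).card - 1 ≤ (C π).card ^ 2 := by
  obtain ⟨g, hg⟩ : ∃ g, g = (F σ).card - 1 := ⟨_, rfl⟩
  have hg1 : 1 ≤ g := by omega
  have h1 : ∀ y ∈ F σ, g ^ 2 ≤ (C π).card * ∑ i ∈ C π, (d G σ i y) ^ 2 := by
    intro y hy
    have hy' : σ y = y := (Finset.mem_filter.1 hy).2
    have h2 := sum_copies G σ π h y hy'
    rw [hg, ← h2]
    exact sq_sum_le_card_mul_sum_sq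
  have h3 : (F σ).card * g ^ 2 ≤ (C π).card * ((C π).card * ((F σ).card * g)) := by
    calc (F σ).card * g ^ 2 = ∑ y ∈ F σ, g ^ 2 := by rw [Finset.sum_const, smul_eq_mul]
      _ ≤ ∑ y ∈ F σ, (C π).card * ∑ i ∈ C π, (d G σ i y) ^ 2 := Finset.sum_le_sum h1
      _ = (C π).card * ∑ i ∈ C π, ∑ y ∈ F σ, (d G σ i y) ^ 2 := by
          rw [← Finset.mul_sum, Finset.sum_comm]
      _ = (C π).card * ∑ i ∈ C π, ((F σ).card * g) := by
          congr 1
          apply Finset.sum_congr rfl
          intro i hi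
          rw [sum_sq G σ π h i (Finset.mem_filter.1 hi).2, hg]
      _ = (C π).card * ((C π).card * ((F σ).card * g)) := by rw [Finset.sum_const, smul_eq_mul]
  rw [← hg]
  have hpos : 0 < (F σ).card * g := Nat.mul_pos (by omega) (by omega)
  apply Nat.le_of_mul_le_mul_left _ hpos
  calc (F σ).card * g * g = (F σ).card * g ^ 2 := by ring
    _ ≤ (C π).card * ((C π).card * ((F σ).card * g)) := h3
    _ = (F σ).card * g * (C π).card ^ 2 := by ring


end J_bound_c

alias bound_c := J_bound_c.bound_c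

namespace J_c_seven

lemma c_seven (G : Fin 7 → SimpleGraph (Fin 50)) (σ : Equiv.Perm (Fin 50)) (π : Fin 7 → Fin 7) (h : Good G σ π)
    (hC : (C π).card = 7) (hF : 1 ≤ (F σ).card) (hd : ∀ i y, σ y = y → d G σ i y ≠ 0) : (F σ).card = 50 := by
  have hyF : ∀ y, y ∈ F σ ↔ σ y = y := by intro y; simp [F]
  have hiC : ∀ i, i ∈ C π ↔ π i = i := by intro i; simp [C]
  have h1 : ∑ y ∈ F σ, ∑ i ∈ C π, 7 * d G σ i y = (F σ).card * (7 * ((F σ).card - 1)) := by
    rw [← smul_eq_mul (a := (F σ).card), ← Finset.sum_const]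
    apply Finset.sum_congr rfl
    intro y hy
    rw [← Finset.mul_sum, sum_copies G σ π h y ((hyF y).mp hy)]
  have h2 : ∑ y ∈ F σ, ∑ i ∈ C π, (d G σ i y) ^ 2 = 7 * ((F σ).card * ((F σ).card - 1)) := by
    rw [Finset.sum_comm]
    have : ∀ i ∈ C π, ∑ y ∈ F σ, (d G σ i y) ^ 2 = (F σ).card * ((F σ).card - 1) :=
      fun i hi => sum_sq G σ π h i ((hiC i).mp hi)
    rw [Finset.sum_congr rfl this, Finset.sum_const, hC, smul_eq_mul]
  have h3 : ∑ y ∈ F σ, ∑ i ∈ C π, (d G σ i y) ^ 2 = ∑ y ∈ F σ, ∑ i ∈ C π, 7 * d G σ i y := by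
    rw [h1, h2]; ring
  have hle : ∀ y i, (d G σ i y) ^ 2 ≤ 7 * d G σ i y := by
    intro y i
    rw [pow_two]
    exact Nat.mul_le_mul_right _ (d_le G σ π h i y)
  have h4 := (Finset.sum_eq_sum_iff_of_le
    (fun y _ => Finset.sum_le_sum (fun i _ => hle y i))).mp h3
  obtain ⟨y, hy⟩ := Finset.card_pos.mp (show 0 < (F σ).card by omega)
  have h5 := (Finset.sum_eq_sum_iff_of_le (fun i _ => hle y i)).mp (h4 y hy)
  have h6 : ∀ i ∈ C π, d G σ i y = 7 := by
    intro i hi
    have h7 := h5 i hi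
    rw [pow_two] at h7
    exact Nat.eq_of_mul_eq_mul_right (Nat.pos_of_ne_zero (hd i y ((hyF y).mp hy))) h7
  have h8 := sum_copies G σ π h y ((hyF y).mp hy)
  rw [Finset.sum_congr rfl h6, Finset.sum_const, hC, smul_eq_mul] at h8
  omega



end J_c_seven

alias c_seven := J_c_seven.c_seven

namespace J_al_sum

lemma al_sum (G : Fin 7 → SimpleGraph (Fin 50)) (σ : Equiv.Perm (Fin 50)) (π : Fin 7 → Fin 7) (h : Good G σ π)
    (hσ : σ ^ 2 = 1) : ∑ i ∈ C π, al G σ i = 50 - (F σ).card := by
  classical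
  have hs : ∀ x, σ (σ x) = x := by
    intro x
    have h1 : (σ ^ 2) x = x := by rw [hσ]; rfl
    rw [sq] at h1
    exact h1
  have hfix : ∀ i x, (G i).Adj x (σ x) → π i = i := by
    intro i x hx
    have h1 := (h.map i x (σ x)).1 hx
    rw [hs] at h1
    exact h.dis _ _ _ _ h1 hx.symm
  unfold al
  rw [← Finset.card_biUnion]
  · have h2 : (C π).biUnion (fun i => univ.filter (fun x => (G i).Adj x (σ x))) = (F σ)ᶜ := by
      ext x
      simp only [Finset.mem_biUnion, Finset.mem_filter, Finset.mem_univ, true_and,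
        Finset.mem_compl, F, C]
      constructor
      · rintro ⟨i, _, hi⟩ hx
        rw [hx] at hi
        exact (G i).loopless.irrefl x hi
      · intro hx
        obtain ⟨i, hi⟩ := h.cov x (σ x) (fun h3 => hx h3.symm)
        exact ⟨i, hfix i x hi, hi⟩
    rw [h2, Finset.card_compl, Fintype.card_fin]
  · intro i _ j _ hij
    rw [Function.onFun, Finset.disjoint_left]
    intro x hx hx'
    rw [Finset.mem_filter] at hx hx'
    exact hij (h.dis _ _ _ _ hx.2 hx'.2)


end J_al_sum

alias al_sum := J_al_sum.al_sum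

namespace J_al_eq

lemma al_eq (G : Fin 7 → SimpleGraph (Fin 50)) (σ : Equiv.Perm (Fin 50)) (π : Fin 7 → Fin 7) (h : Good G σ π)
    (hσ : σ ^ 2 = 1) (i : Fin 7) (hi : π i = i) :
    al G σ i + 8 * (F σ).card = 50 + ∑ y ∈ F σ, d G σ i y := by
  classical
  have hss : ∀ x, σ (σ x) = x := by
    intro x
    have := congrArg (fun f : Equiv.Perm (Fin 50) => f x) hσ
    simpa [pow_two] using this
  have hmap : ∀ x y, (G i).Adj x y → (G i).Adj (σ x) (σ y) := by
    intro x y hxy
    have := (h.map i x y).1 hxy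
    rwa [hi] at this
  have hreg : ∀ y, (univ.filter (fun x => (G i).Adj y x)).card = 7 := by
    intro y
    have := h.reg i y
    rw [Nat.card_eq_fintype_card, Fintype.card_subtype] at this
    convert this
  let N' : Fin 50 → Finset (Fin 50) := fun y => univ.filter (fun x => (G i).Adj y x ∧ σ x ≠ x)
  have hN : ∀ y, (N' y).card + d G σ i y = 7 := by
    intro y
    rw [← hreg y]
    have e1 : (univ.filter (fun x => (G i).Adj y x)) = N' y ∪ ((F σ).filter (fun z => (G i).Adj y z)) := by
      ext x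
      simp only [N', F, mem_filter, mem_univ, true_and, mem_union]
      tauto
    rw [e1, card_union_of_disjoint]
    · unfold d
      congr
    · rw [Finset.disjoint_left]
      intro x hx hx'
      simp only [N', F, mem_filter, mem_univ, true_and] at hx hx'
      exact hx.2 hx'.1
  have hB : (univ.filter (fun x => σ x ≠ x ∧ ¬ (G i).Adj x (σ x))) = (F σ).biUnion N' := by
    ext x
    simp only [N', F, mem_filter, mem_univ, true_and, mem_biUnion]
    constructor
    · rintro ⟨h1, h2⟩
      obtain ⟨z, hz1, hz2⟩ := h.ex i x (σ x) (Ne.symm h1) h2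
      have a1 : (G i).Adj (σ x) (σ z) := hmap _ _ hz1
      have a2 : (G i).Adj (σ z) (σ (σ x)) := hmap _ _ hz2
      rw [hss] at a2
      have := h.un i x (σ x) z (σ z) (Ne.symm h1) hz1 hz2 a2.symm a1.symm
      exact ⟨z, this.symm, hz1.symm, h1⟩
    · rintro ⟨y, hy, hyx, hx⟩
      refine ⟨hx, ?_⟩
      have a1 : (G i).Adj (σ y) (σ x) := hmap _ _ hyx
      rw [hy] at a1
      exact h.tri i x y (σ x) hyx.symm a1
  have hBc : (univ.filter (fun x => σ x ≠ x ∧ ¬ (G i).Adj x (σ x))).card = ∑ y ∈ F σ, (N' y).card := by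
    rw [hB, card_biUnion]
    intro y hy y' hy' hne
    show Disjoint (N' y) (N' y')
    rw [Finset.disjoint_left]
    intro x hx hx'
    simp only [N', F, mem_filter, mem_univ, true_and, Finset.mem_coe] at hx hx' hy hy'
    apply hne
    have a1 : (G i).Adj (σ y) (σ x) := hmap _ _ hx.1
    rw [hy] at a1
    have a2 : (G i).Adj (σ y') (σ x) := hmap _ _ hx'.1
    rw [hy'] at a2
    exact h.un i x (σ x) y y' (Ne.symm hx.2) hx.1.symm a1 hx'.1.symm a2
  have hsum : (∑ y ∈ F σ, (N' y).card) + ∑ y ∈ F σ, d G σ i y = 7 * (F σ).card := by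
    rw [← sum_add_distrib, sum_congr rfl (fun y _ => hN y)]
    simp [mul_comm]
  have htot : al G σ i + (F σ).card + (univ.filter (fun x => σ x ≠ x ∧ ¬ (G i).Adj x (σ x))).card = 50 := by
    have e0 : (univ : Finset (Fin 50)).card = 50 := by simp
    have e1 : (univ : Finset (Fin 50)) = ((univ.filter (fun x => (G i).Adj x (σ x))) ∪ F σ) ∪ (univ.filter (fun x => σ x ≠ x ∧ ¬ (G i).Adj x (σ x))) := by
      ext x
      simp only [F, mem_filter, mem_univ, true_and, mem_union]
      tauto
    have e2 : al G σ i = (univ.filter (fun x => (G i).Adj x (σ x))).card := by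
      unfold al
      congr
    rw [e2]
    refine Eq.trans ?_ ((congrArg Finset.card e1).symm.trans e0)
    rw [card_union_of_disjoint, card_union_of_disjoint]
    · rw [Finset.disjoint_left]
      intro x hx hx'
      simp only [F, mem_filter, mem_univ, true_and] at hx hx'
      rw [hx'] at hx
      exact (G i).loopless.irrefl x hx
    · rw [Finset.disjoint_left]
      intro x hx hx'
      simp only [F, mem_filter, mem_univ, true_and, mem_union] at hx hx'
      rcases hx with hx | hx
      · exact hx'.2 hx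
      · exact hx'.1 hx
  rw [hBc] at htot
  omega


end J_al_eq

alias al_eq := J_al_eq.al_eq

namespace J_two_eq

lemma two_eq (G : Fin 7 → SimpleGraph (Fin 50)) (σ : Equiv.Perm (Fin 50)) (π : Fin 7 → Fin 7) (h : Good G σ π)
    (hσ : σ ^ 2 = 1) : ((C π).card : ℤ) * (50 - 8 * (F σ).card) = 50 - ((F σ).card : ℤ) ^ 2 := by
  have h1 : ∑ i ∈ C π, (al G σ i + 8 * (F σ).card) =
      ∑ i ∈ C π, (50 + ∑ y ∈ F σ, d G σ i y) :=
    Finset.sum_congr rfl fun i hi => al_eq G σ π h hσ i (by
      unfold C at hi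
      exact (Finset.mem_filter.1 hi).2)
  rw [Finset.sum_add_distrib, Finset.sum_add_distrib, al_sum G σ π h hσ, Finset.sum_const,
    Finset.sum_const, Finset.sum_comm] at h1
  have h2 : ∑ y ∈ F σ, ∑ i ∈ C π, d G σ i y = ∑ y ∈ F σ, ((F σ).card - 1) :=
    Finset.sum_congr rfl fun y hy => sum_copies G σ π h y (by
      unfold F at hy
      exact (Finset.mem_filter.1 hy).2)
  rw [h2, Finset.sum_const] at h1
  have h3 : (F σ).card ≤ 50 := by
    have := Finset.card_le_univ (F σ)
    rwa [Fintype.card_fin] at this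
  obtain ⟨c, hc⟩ : ∃ c, c = (C π).card := ⟨_, rfl⟩
  obtain ⟨f, hf⟩ : ∃ f, f = (F σ).card := ⟨_, rfl⟩
  rw [← hc, ← hf] at h1 ⊢
  rw [← hf] at h3
  simp only [_root_.smul_eq_mul] at h1
  have h4 : ((50 - f : ℕ) : ℤ) = 50 - f := by omega
  have h5 : ((50 - f : ℕ) : ℤ) + c * (8 * f) = c * 50 + f * ((f - 1 : ℕ) : ℤ) := by exact_mod_cast h1
  have h6 : (f : ℤ) * ((f - 1 : ℕ) : ℤ) = f * (f - 1) := by
    rcases Nat.eq_zero_or_pos f with h0 | h0
    · rw [h0]; simp
    · rw [Nat.cast_sub h0]; simp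
  rw [h4, h6] at h5
  linarith


end J_two_eq

alias two_eq := J_two_eq.two_eq

namespace J_no_fpf
lemma no_fpf (G : Fin 7 → SimpleGraph (Fin 50)) (σ : Equiv.Perm (Fin 50)) (π : Fin 7 → Fin 7) (h : Good G σ π)
    (hσ : σ ^ 2 = 1) (i : Fin 7) (hi : ∀ x, (G i).Adj x (σ x)) : False := by
  classical
  have hσ2 : ∀ x, σ (σ x) = x := by
    intro x
    have := congrArg (fun τ : Equiv.Perm (Fin 50) => τ x) hσ
    simpa [pow_two] using this
  have hπ : π i = i := by
    have h1 := (h.map i 0 (σ 0)).1 (hi 0)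
    rw [hσ2] at h1
    exact (h.dis i (π i) 0 (σ 0) (hi 0) h1.symm).symm
  have h2 : (univ.filter (fun x => (G i).Adj 0 x)).card = 7 := by
    rw [← h.reg i 0, Nat.card_eq_fintype_card, Fintype.card_subtype]
  obtain ⟨y, hy, hne⟩ : ∃ y ∈ (univ.filter (fun x => (G i).Adj 0 x)), y ≠ σ 0 := by
    apply Finset.exists_mem_ne
    omega
  rw [mem_filter] at hy
  have h3 : (G i).Adj (σ 0) (σ y) := by
    have := (h.map i 0 y).1 hy.2
    rwa [hπ] at this
  have h4 : (0 : Fin 50) ≠ σ y := by
    intro h5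
    apply hne
    rw [h5, hσ2]
  exact hne (h.un i 0 (σ y) y (σ 0) h4 hy.2 (hi y) (hi 0) h3)


end J_no_fpf

alias no_fpf := J_no_fpf.no_fpf

namespace J_trace_mod
namespace T999
open scoped Classical
/-- 7-regular, no triangle, two distinct nonadjacent vertices have exactly one common neighbour -/
structure Moore (H : SimpleGraph (Fin 50)) : Prop where
  reg : ∀ x, (Finset.univ.filter (fun y => H.Adj x y)).card = 7
  tri : ∀ x y z, H.Adj x y → H.Adj y z → H.Adj x z → False
  com : ∀ x y, x ≠ y → ¬ H.Adj x y → ∃! z, H.Adj x z ∧ H.Adj y z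

/-- `σ` is an automorphism of `H` -/
def Inv (H : SimpleGraph (Fin 50)) (σ : Equiv.Perm (Fin 50)) : Prop :=
  ∀ x y, H.Adj x y ↔ H.Adj (σ x) (σ y)

/-- fixed points -/
noncomputable def F (σ : Equiv.Perm (Fin 50)) : Finset (Fin 50) :=
  Finset.univ.filter (fun x => σ x = x)

theorem tm_nil {R : Type*} [Ring R] (p n : R) (h : Commute p n) (hn : n ^ 3 = 0) :
    IsNilpotent (p * n) := ⟨3, by rw [h.mul_pow, hn, mul_zero]⟩

theorem tm_five : (5 : ZMod 5) = 0 := by decide

theorem tm_seven : ((7 : ℕ) : ZMod 5) = 1 + 1 := by decide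

theorem trace_mod (H : SimpleGraph (Fin 50)) (hM : Moore H) (σ : Equiv.Perm (Fin 50))
    (hI : Inv H σ) :
    (((Finset.univ.filter (fun x => H.Adj x (σ x))).card : ℕ) : ZMod 5) = 2 * ((F σ).card : ZMod 5) := by
  haveI : Fact (Nat.Prime 5) := ⟨by norm_num⟩
  have h5 : (5 : ZMod 5) = 0 := tm_five
  have h7 : ((7 : ℕ) : ZMod 5) = 1 + 1 := tm_seven
  obtain ⟨A, hA⟩ : ∃ A : Matrix (Fin 50) (Fin 50) (ZMod 5),
      ∀ i j, A i j = if H.Adj i j then 1 else 0 := ⟨Matrix.of fun i j => if H.Adj i j then 1 else 0,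
        fun _ _ => rfl⟩
  obtain ⟨J, hJ⟩ : ∃ J : Matrix (Fin 50) (Fin 50) (ZMod 5), ∀ i j, J i j = 1 :=
    ⟨Matrix.of fun _ _ => 1, fun _ _ => rfl⟩
  obtain ⟨P, hP⟩ : ∃ P : Matrix (Fin 50) (Fin 50) (ZMod 5),
      ∀ i j, P i j = if σ i = j then 1 else 0 := ⟨Matrix.of fun i j => if σ i = j then 1 else 0,
        fun _ _ => rfl⟩
  have hAAe : ∀ i j, (A * A) i j =
      ((Finset.univ.filter (fun z => H.Adj i z ∧ H.Adj z j)).card : ZMod 5) := by
    intro i j
    rw [Matrix.mul_apply, Finset.card_filter, Nat.cast_sum]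
    refine Finset.sum_congr rfl fun z _ => ?_
    rw [hA, hA]
    by_cases h1 : H.Adj i z <;> by_cases h2 : H.Adj z j <;> simp [h1, h2]
  have hAA : A * A + A = 1 + J := by
    ext i j
    rw [Matrix.add_apply, Matrix.add_apply, hAAe, hJ, hA]
    by_cases hij : i = j
    · subst hij
      have e : (Finset.univ.filter (fun z => H.Adj i z ∧ H.Adj z i)) =
          Finset.univ.filter (fun z => H.Adj i z) := by
        ext z
        simp only [Finset.mem_filter, Finset.mem_univ, true_and]
        exact ⟨fun h => h.1, fun h => ⟨h, h.symm⟩⟩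
      rw [e, hM.reg i, h7, Matrix.one_apply_eq, if_neg (H.irrefl)]
      ring
    · rw [Matrix.one_apply_ne hij]
      by_cases hadj : H.Adj i j
      · have e : (Finset.univ.filter (fun z => H.Adj i z ∧ H.Adj z j)) = ∅ := by
          rw [Finset.filter_eq_empty_iff]
          rintro z _ ⟨h1, h2⟩
          exact hM.tri i z j h1 h2 hadj
        rw [e, if_pos hadj]
        simp
      · obtain ⟨z, hz, hu⟩ := hM.com i j hij hadj
        have e : (Finset.univ.filter (fun z => H.Adj i z ∧ H.Adj z j)) = {z} := by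
          ext w
          simp only [Finset.mem_filter, Finset.mem_univ, true_and, Finset.mem_singleton]
          constructor
          · rintro ⟨h1, h2⟩
            exact hu w ⟨h1, h2.symm⟩
          · rintro rfl
            exact ⟨hz.1, hz.2.symm⟩
        rw [e, if_neg hadj]
        simp
  have hAJ : A * J = J + J := by
    ext i j
    rw [Matrix.mul_apply, Matrix.add_apply, hJ]
    have e : ∑ z, A i z * J z j = ((Finset.univ.filter (fun z => H.Adj i z)).card : ZMod 5) := by
      rw [Finset.card_filter, Nat.cast_sum]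
      refine Finset.sum_congr rfl fun z _ => ?_
      rw [hA, hJ]
      by_cases h1 : H.Adj i z <;> simp [h1]
    rw [e, hM.reg i, h7]
  have hNN : (A - (1 + 1)) * (A - (1 + 1)) = J := by
    have e1 : (A - (1 + 1)) * (A - (1 + 1)) =
        (A * A + A) - (A + A + A + A + A) + (1 + 1 + 1 + 1) := by noncomm_ring
    rw [e1, hAA]
    ext i j
    simp only [Matrix.add_apply, Matrix.sub_apply]
    linear_combination ((1 : Matrix (Fin 50) (Fin 50) (ZMod 5)) i j - A i j) * h5
  have hNJ : (A - (1 + 1)) * J = 0 := by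
    rw [sub_mul, hAJ, add_mul, one_mul, sub_self]
  have hN3 : (A - (1 + 1)) ^ 3 = 0 := by
    rw [pow_succ', pow_two, hNN, hNJ]
  have hPA : Commute P A := by
    change P * A = A * P
    ext i j
    rw [Matrix.mul_apply, Matrix.mul_apply]
    have e1 : ∑ z, P i z * A z j = A (σ i) j := by
      rw [Finset.sum_eq_single (σ i)]
      · rw [hP, if_pos rfl, one_mul]
      · intro b _ hb
        rw [hP, if_neg (fun h => hb h.symm), zero_mul]
      · intro h
        exact absurd (Finset.mem_univ _) h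
    have e2 : ∑ z, A i z * P z j = A i (σ.symm j) := by
      rw [Finset.sum_eq_single (σ.symm j)]
      · rw [hP, if_pos (σ.apply_symm_apply j), mul_one]
      · intro b _ hb
        rw [hP, if_neg (fun h => hb (by rw [← h, σ.symm_apply_apply])), mul_zero]
      · intro h
        exact absurd (Finset.mem_univ _) h
    rw [e1, e2, hA, hA]
    have h := hI i (σ.symm j)
    rw [σ.apply_symm_apply] at h
    by_cases h1 : H.Adj (σ i) j
    · rw [if_pos h1, if_pos (h.2 h1)]
    · rw [if_neg h1, if_neg (fun h2 => h1 (h.1 h2))]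
  have hPN : Commute P (A - (1 + 1)) := by
    have e : P * (A - (1 + 1)) = (A - (1 + 1)) * P := by
      rw [mul_sub, sub_mul, hPA.eq, mul_add, add_mul, mul_one, one_mul]
    exact e
  have hnil : IsNilpotent (P * (A - (1 + 1))) := tm_nil P (A - (1 + 1)) hPN hN3
  have htr0 := (Matrix.isNilpotent_trace_of_isNilpotent hnil).eq_zero
  have htr1 : (P * (A - (1 + 1))).trace = (P * A).trace - (P.trace + P.trace) := by
    rw [mul_sub, mul_add, mul_one, Matrix.trace_sub, Matrix.trace_add]
  have htr2 : (P * A).trace = (((Finset.univ.filter (fun x => H.Adj x (σ x))).card : ℕ) : ZMod 5) := by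
    rw [Matrix.trace, Finset.card_filter, Nat.cast_sum]
    refine Finset.sum_congr rfl fun i _ => ?_
    rw [Matrix.diag_apply, Matrix.mul_apply, Finset.sum_eq_single (σ i)]
    · rw [hP, if_pos rfl, one_mul, hA]
      by_cases h1 : H.Adj i (σ i)
      · rw [if_pos h1.symm, if_pos h1]
        simp
      · rw [if_neg (fun h2 => h1 h2.symm), if_neg h1]
        simp
    · intro b _ hb
      rw [hP, if_neg (fun h => hb h.symm), zero_mul]
    · intro h
      exact absurd (Finset.mem_univ _) h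
  have htr3 : P.trace = ((F σ).card : ZMod 5) := by
    unfold F
    rw [Matrix.trace, Finset.card_filter, Nat.cast_sum]
    refine Finset.sum_congr rfl fun i _ => ?_
    rw [Matrix.diag_apply, hP]
    by_cases h1 : σ i = i
    · rw [if_pos h1, if_pos h1]
      simp
    · rw [if_neg h1, if_neg h1]
      simp
  rw [htr1, htr2, htr3] at htr0
  linear_combination htr0


end T999

lemma trace_mod (G : Fin 7 → SimpleGraph (Fin 50)) (σ : Equiv.Perm (Fin 50)) (π : Fin 7 → Fin 7) (h : Good G σ π)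
    (i : Fin 7) (hi : π i = i) (hal : al G σ i = 0) : 5 ∣ (F σ).card := by
  classical
  have hM : T999.Moore (G i) := by
    refine ⟨?_, ?_, ?_⟩
    · intro x
      have h1 := h.reg i x
      rw [Nat.card_eq_fintype_card, Fintype.card_subtype] at h1
      convert h1
    · intro x y z h1 h2 h3
      exact h.tri i x y z h1 h2 h3
    · intro x y hne hna
      obtain ⟨z, h1, h2⟩ := h.ex i x y hne hna
      exact ⟨z, ⟨h1, h2.symm⟩, fun w hw => h.un i x y w z hne hw.1 hw.2.symm h1 h2⟩
  have hI : T999.Inv (G i) σ := by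
    intro x y
    have := h.map i x y
    rwa [hi] at this
  have h1 := T999.trace_mod (G i) hM σ hI
  have h2 : (Finset.univ.filter (fun x => (G i).Adj x (σ x))).card = 0 := by
    rw [← hal, al]

  have h3 : (T999.F σ) = F σ := by
    rw [T999.F, F]

  have h4 : ((2 * (F σ).card : ℕ) : ZMod 5) = 0 := by
    push_cast
    rw [← h3, ← h1]
    have : (Finset.univ.filter (fun x => (G i).Adj x (σ x))).card = 0 := h2
    convert congrArg (Nat.cast : ℕ → ZMod 5) this using 1
    simp
  have h5 : 5 ∣ 2 * (F σ).card := (ZMod.natCast_eq_zero_iff _ _).1 h4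
  omega


end J_trace_mod

alias trace_mod := J_trace_mod.trace_mod

namespace J_al_three

lemma al_three (G : Fin 7 → SimpleGraph (Fin 50)) (σ : Equiv.Perm (Fin 50)) (π : Fin 7 → Fin 7) (h : Good G σ π)
    (hσ : σ ^ 3 = 1) (hne : σ ≠ 1) (i : Fin 7) (hi : π i = i) : al G σ i = 0 := by
  classical
  unfold al
  rw [Finset.card_eq_zero, Finset.eq_empty_iff_forall_notMem]
  intro x hx0
  have hx : (G i).Adj x (σ x) := (Finset.mem_filter.mp hx0).2
  have hm : ∀ a b, (G i).Adj a b → (G i).Adj (σ a) (σ b) := by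
    intro a b hab
    have := (h.map i a b).mp hab
    rwa [hi] at this
  have h1 := hm _ _ hx
  have h2 := hm _ _ h1
  have h3 : σ (σ (σ x)) = x := by
    have := congrArg (fun τ : Equiv.Perm (Fin 50) => τ x) hσ
    simpa [pow_succ, Equiv.Perm.mul_apply] using this
  rw [h3] at h2
  exact h.tri i _ _ _ hx h1 h2.symm


end J_al_three

alias al_three := J_al_three.al_three

namespace J_case_two

lemma case_two (G : Fin 7 → SimpleGraph (Fin 50)) (σ : Equiv.Perm (Fin 50)) (π : Fin 7 → Fin 7) (h : Good G σ π)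
    (hσ : σ ^ 2 = 1) (hne : σ ≠ 1) : False := by
  have : Fact (Nat.Prime 2) := ⟨Nat.prime_two⟩
  have hf : (F σ).card < 50 := F_ne σ hne
  have hc : (C π).card ≤ 7 := by
    have := Finset.card_le_univ (C π)
    simpa using this
  have he := two_eq G σ π h hσ
  have hfix : ∀ i ∈ C π, π i = i := by
    intro i hi
    simpa [C] using hi
  have hFfix : ∀ y ∈ F σ, σ y = y := by
    intro y hy
    simpa [F] using hy
  have hcases : ((F σ).card = 0 ∧ (C π).card = 1) ∨ ((F σ).card = 6 ∧ (C π).card = 7) ∨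
      ((F σ).card = 8 ∧ (C π).card = 1) := by
    obtain ⟨f, hfe⟩ : ∃ f, f = (F σ).card := ⟨_, rfl⟩
    obtain ⟨c, hce⟩ : ∃ c, c = (C π).card := ⟨_, rfl⟩
    rw [← hfe] at hf he ⊢
    rw [← hce] at hc he ⊢
    clear hfe hce
    interval_cases f <;> norm_num at he ⊢ <;> omega
  rcases hcases with ⟨h1, h2⟩ | ⟨h1, h2⟩ | ⟨h1, h2⟩
  · obtain ⟨i, hi⟩ := Finset.card_eq_one.1 h2
    have hii : π i = i := hfix i (by rw [hi]; exact Finset.mem_singleton_self i)
    have hal := al_eq G σ π h hσ i hii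
    have hF0 : F σ = ∅ := Finset.card_eq_zero.1 h1
    rw [hF0] at hal
    simp only [Finset.card_empty, Finset.sum_empty, mul_zero, add_zero] at hal
    unfold al at hal
    have hu := (Finset.card_eq_iff_eq_univ _).1 (hal.trans (by simp))
    refine no_fpf G σ π h hσ i fun x => ?_
    have hx := Finset.mem_univ x
    rw [← hu] at hx
    simpa using hx
  · have hne' : (F σ).Nonempty := by
      rw [← Finset.card_pos]; omega
    obtain ⟨y, hy⟩ := hne'
    have hs := sum_copies G σ π h y (hFfix y hy)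
    rw [h1] at hs
    have hge : ∀ i ∈ C π, 1 ≤ d G σ i y := by
      intro i hi
      have hm := d_mod G σ π h 2 hσ i (hfix i hi) y (hFfix y hy)
      unfold Nat.ModEq at hm
      omega
    have h3 : (C π).card • 1 ≤ ∑ i ∈ C π, d G σ i y := Finset.card_nsmul_le_sum _ _ _ hge
    rw [h2, hs] at h3
    norm_num at h3
  · obtain ⟨i, hi⟩ := Finset.card_eq_one.1 h2
    have hii : π i = i := hfix i (by rw [hi]; exact Finset.mem_singleton_self i)
    have hd : ∀ y ∈ F σ, d G σ i y = 7 := by
      intro y hy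
      have hs := sum_copies G σ π h y (hFfix y hy)
      rw [h1, hi, Finset.sum_singleton] at hs
      omega
    have hsq := sum_sq G σ π h i hii
    rw [Finset.sum_congr rfl (fun y hy => by rw [hd y hy])] at hsq
    rw [Finset.sum_const, h1] at hsq
    norm_num at hsq


end J_case_two

alias case_two := J_case_two.case_two

namespace J_case_three

lemma case_three (G : Fin 7 → SimpleGraph (Fin 50)) (σ : Equiv.Perm (Fin 50)) (π : Fin 7 → Fin 7) (h : Good G σ π)
    (hσ : σ ^ 3 = 1) (hne : σ ≠ 1) : False := by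
  haveI : Fact (Nat.Prime 3) := ⟨by norm_num⟩
  have hFm := F_mod σ 3 hσ
  have hCm := C_mod G σ π h 3 hσ
  have hFlt := F_ne σ hne
  have hC7 : (C π).card ≤ 7 := by
    have := Finset.card_le_univ (C π)
    simpa using this
  have hFm' : (F σ).card % 3 = 2 := by
    unfold Nat.ModEq at hFm; omega
  have hCm' : (C π).card % 3 = 1 := by
    unfold Nat.ModEq at hCm; omega
  have hFpos : 1 ≤ (F σ).card := by omega
  have hCpos : 1 ≤ (C π).card := by omega
  obtain ⟨i, hi⟩ := Finset.card_pos.mp hCpos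
  have hiπ : π i = i := by simpa [C] using hi
  have h5 : 5 ∣ (F σ).card := trace_mod G σ π h i hiπ (al_three G σ π h hσ hne i hiπ)
  have hd : ∀ j ∈ C π, ∀ z, σ z = z → d G σ j z % 3 = 1 := by
    intro j hj z hz
    have hj' : π j = j := by simpa [C] using hj
    have := d_mod G σ π h 3 hσ j hj' z hz
    unfold Nat.ModEq at this; omega
  rcases (by omega : (C π).card = 7 ∨ (C π).card = 4 ∨ (C π).card = 1) with h7 | h4 | h1
  · have hall : C π = univ := by
      apply Finset.eq_univ_of_card; simpa using h7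
    have := c_seven G σ π h h7 hFpos (by
      intro j z hz h0
      have := hd j (by rw [hall]; exact mem_univ j) z hz
      omega)
    omega
  · have hb := bound_c G σ π h (by omega)
    rw [h4] at hb
    have hF5 : (F σ).card = 5 := by omega
    have hone : ∀ z ∈ F σ, d G σ i z = 1 := by
      intro z hz
      have hz' : σ z = z := by simpa [F] using hz
      have hs := sum_copies G σ π h z hz'
      have hle : ∀ j ∈ C π, 1 ≤ d G σ j z := by
        intro j hj
        have := hd j hj z hz'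
        omega
      have heq : ∑ j ∈ C π, 1 = ∑ j ∈ C π, d G σ j z := by
        rw [hs, hF5]; simp [h4]
      exact ((Finset.sum_eq_sum_iff_of_le hle).mp heq i hi).symm
    have hq := sum_sq G σ π h i hiπ
    rw [Finset.sum_congr rfl (fun z hz => by rw [hone z hz])] at hq
    rw [hF5] at hq
    simp [hF5] at hq
  · have hb := bound_c G σ π h (by omega)
    rw [h1] at hb
    omega


end J_case_three

alias case_three := J_case_three.case_three

namespace J_case_big

lemma case_big (G : Fin 7 → SimpleGraph (Fin 50)) (σ : Equiv.Perm (Fin 50)) (π : Fin 7 → Fin 7) (h : Good G σ π)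
    (p : ℕ) [Fact p.Prime] (hp : 7 < p) (hσ : σ ^ p = 1) (hne : σ ≠ 1) : False := by
  have hpp : p.Prime := Fact.out
  have hC7 : (C π).card ≤ 7 := by
    have := Finset.card_le_univ (C π)
    simpa using this
  have hC : (C π).card = 7 :=
    Nat.ModEq.eq_of_lt_of_lt (C_mod G σ π h p hσ) (by omega) hp
  have hCu : ∀ i : Fin 7, π i = i := by
    intro i
    have h1 : C π = univ := by
      apply Finset.eq_univ_of_card
      rw [hC]; simp
    have h2 : i ∈ C π := by rw [h1]; exact Finset.mem_univ i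
    exact (Finset.mem_filter.mp h2).2
  rcases (F σ).eq_empty_or_nonempty with hF | hF
  · have h1 := F_mod σ p hσ
    rw [hF, Finset.card_empty] at h1
    have h2 : p ∣ 50 := (Nat.modEq_zero_iff_dvd).mp h1.symm
    have h3 : p ∣ 2 * (5 * 5) := by simpa using h2
    rcases (Nat.Prime.dvd_mul hpp).mp h3 with h4 | h4
    · have := Nat.le_of_dvd (by norm_num) h4
      omega
    · rcases (Nat.Prime.dvd_mul hpp).mp h4 with h5 | h5
      · have := Nat.le_of_dvd (by norm_num) h5
        omega
      · have := Nat.le_of_dvd (by norm_num) h5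
        omega
  · obtain ⟨y, hy⟩ := hF
    have hy' : σ y = y := (Finset.mem_filter.mp hy).2
    have h1 : ∀ i ∈ C π, d G σ i y = 7 := by
      intro i _
      exact Nat.ModEq.eq_of_lt_of_lt (d_mod G σ π h p hσ i (hCu i) y hy')
        (lt_of_le_of_lt (d_le G σ π h i y) hp) hp
    have h2 := sum_copies G σ π h y hy'
    rw [Finset.sum_congr rfl h1, Finset.sum_const, hC] at h2
    have h3 := F_ne σ hne
    simp at h2
    omega


end J_case_big

alias case_big := J_case_big.case_big

end HSDec
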